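import Pool.Agent.H20.T4.Stm
import Pool.Agent.H9.TC.CP

/-!
Project TM4 (MP_b6022c_nt), row GU: a good base point and any admissible tuple of shifts give
`Gen` for most `s` (union bound over (N2), (N3), (N5) and the point properties).
-/

namespace Pool.Agent.H34.T4

open Finset Pool.Agent.H9.TC Pool.Agent.H20.TM Pool.Agent.H20.T4

theorem gu_exS {B : ℕ} {ι : Type} (s : Finset ι) (P : ι → ℕ → Prop) :
    (cnt B (fun b => ∃ i ∈ s, P i b) : ℝ) ≤ ∑ i ∈ s, (cnt B (P i) : ℝ) := by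
  classical
  have h1 : cnt B (fun b => ∃ i ∈ s, P i b) ≤ ∑ i ∈ s, cnt B (P i) := by
    simp only [cp_cnt]
    refine le_trans (card_le_card fun b hb => ?_) card_biUnion_le
    rw [mem_filter] at hb
    obtain ⟨hb1, i, hi, hb2⟩ := hb
    rw [mem_biUnion]
    exact ⟨i, hi, mem_filter.2 ⟨hb1, hb2⟩⟩
  exact_mod_cast h1

theorem gu_R (h t r : ℤ) (D κh κt ED : ℕ) (hD : D ≤ 2 ^ ED) (hh : |h| ≤ 2 ^ κh)
    (ht : |t| ≤ 2 ^ κt) (hr : r = h + D * t) : |r| ≤ 2 ^ (κh + κt + ED + 1) := by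
  have h1 : |r| ≤ |h| + D * |t| := by
    rw [hr]
    refine (abs_add_le _ _).trans ?_
    rw [abs_mul, Nat.abs_cast]
  have h2 : (D : ℤ) ≤ 2 ^ ED := by exact_mod_cast hD
  have h3 : (D : ℤ) * |t| ≤ 2 ^ ED * 2 ^ κt :=
    mul_le_mul h2 ht (abs_nonneg _) (by positivity)
  have h4 : (2 : ℤ) ^ ED * 2 ^ κt ≤ 2 ^ (κh + κt + ED) := by
    rw [← pow_add]
    exact pow_le_pow_right₀ (by norm_num) (by omega)
  have h5 : (2 : ℤ) ^ κh ≤ 2 ^ (κh + κt + ED) :=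
    pow_le_pow_right₀ (by norm_num) (by omega)
  have h6 : (2 : ℤ) ^ (κh + κt + ED + 1) = 2 ^ (κh + κt + ED) * 2 := pow_succ _ _
  rw [h6]
  linarith

/-- (GU) -/
theorem gu (h2 : H20.T4.N2Stmt) (h3 : H20.T4.N3Stmt) (h5 : H20.T4.N5Stmt) : GUStmt := by
  intro q1 q c g L g9 Kn Cf ε hq hc hg hL hε
  obtain ⟨c2, p2, H2⟩ := h2 q c L g9 Cf hq hc hL
  obtain ⟨c3, p3, H3⟩ := h3 q c L g9 Cf hq hc hL
  obtain ⟨c5, p5, H5⟩ := h5 q c L g9 Cf hq hc hL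
  obtain ⟨DD, hD⟩ : ∃ DD : ℝ, DD = |c2| + |c3| + |c5| := ⟨_, rfl⟩
  have a2 := abs_nonneg c2
  have a3 := abs_nonneg c3
  have a5 := abs_nonneg c5
  have hD2 : c2 ≤ DD := by have := le_abs_self c2; linarith
  have hD3 : c3 ≤ DD := by have := le_abs_self c3; linarith
  have hD5 : c5 ≤ DD := by have := le_abs_self c5; linarith
  have hD0 : 0 ≤ DD := by linarith
  obtain ⟨NN, hNN⟩ : ∃ NN : ℝ, NN = q * Kn + q * Kn + q * q + 1 := ⟨_, rfl⟩
  obtain ⟨p7, hp7⟩ : ∃ p7 : ℕ, NN * DD / ε ≤ 2 ^ p7 := by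
    obtain ⟨n, hn⟩ := pow_unbounded_of_one_lt (NN * DD / ε) (one_lt_two)
    exact ⟨n, hn.le⟩
  refine ⟨p2 + p3 + p5 + p7 + 1, ?_⟩
  intro p hp v1 K1 K2 M τ σ κh κt ED D hK1 hK2 hv1 hDE hσ hσ3 hR d e f hd n hGb ip h t r i0
    hh ht hr hdel
  obtain ⟨G2, G3, G3b, G5⟩ := hGb
  obtain ⟨x, hx⟩ : ∃ x : ℝ, x = DD * 2 ^ σ / 2 ^ p := ⟨_, rfl⟩
  have hx0 : 0 ≤ x := by rw [hx]; positivity
  have hβ0 : (0 : ℝ) ≤ 2 ^ σ := by positivity
  obtain ⟨R, hRdef⟩ : ∃ R : ℕ, R = κh + κt + ED + 1 := ⟨_, rfl⟩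
  have hrR : ∀ i, |r i| ≤ 2 ^ R := fun i => by
    rw [hRdef]; exact gu_R _ _ _ D κh κt ED hDE (hh i) (ht i) (hr i)
  have hj1 : ∀ j, j ≤ K1 → j * p ≤ K1 * p := fun j hj => Nat.mul_le_mul_right p hj
  have hqq : (20 * q + 20) * p + 10 * p = (30 * q + 30) * p - 10 * q * p := by
    have : (30 * q + 30) * p = (20 * q + 20) * p + 10 * p + 10 * q * p := by ring
    omega
  have hqq2 : (20 * q + 20) * p + 10 * p ≤ (30 * q + 30) * p := by omega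
  have hd' : ∀ i, |(fun i => d (ip i)) i| ≤ (Cf : ℤ) := fun i => hd (ip i)
  obtain ⟨Sg, hSg⟩ : ∃ Sg : ℕ → Fin q → ℤ, Sg = fun s =>
    slo c (fun i => d (ip i)) (fun i => e (ip i)) (fun i => f (ip i)) r n s := ⟨_, rfl⟩
  -- the events
  have e4 : ∀ is : Fin q, ∀ j ∈ range K1,
      (cnt (2 ^ σ) (fun s => ¬ Dir univ (v1 + (j + 1) * p) (2 ^ (v1 + (j + 1) * p - 2 * p))
        (2 ^ ((2 * q + 2) * p)) (v1 + K1 * p) L g9 (Sg s) (Sg s is)) : ℝ) ≤ x := by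
    intro is j hj
    have hj' := hj1 (j + 1) (mem_range.1 hj)
    rw [hx, hSg]
    exact cp_div hβ0 (H2 p (by omega) (v1 + (j + 1) * p) (v1 + K1 * p) σ κh κt ED D (by omega)
      (by omega) hσ (by omega) (by omega) hDE n (G2 j (mem_range.1 hj)) _ _ _ h t r hd' hh ht hr
      is) hD2
  have e5 : ∀ is : Fin q, ∀ j ∈ range K2,
      (cnt (2 ^ σ) (fun s => ¬ Dir univ (v1 + K1 * p + L + (2 * q + 4) * p + (j + 1) * p)
        (2 ^ (v1 + K1 * p + L + (2 * q + 4) * p + (j + 1) * p - 2 * p))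
        (2 ^ ((2 * q + 2) * p)) (v1 + K1 * p) L g9 (Sg s) (Sg s is)) : ℝ) ≤ x := by
    intro is j hj
    rw [hx, hSg]
    exact cp_div hβ0 (H3 p (by omega) (v1 + K1 * p + L + (2 * q + 4) * p + (j + 1) * p)
      (v1 + K1 * p) σ R (by omega) hσ hσ3 (by omega) n (G3b j (mem_range.1 hj)) _ _ _ r hd'
      hrR is) hD3
  have e7 : ∀ ii ∈ (univ : Finset (Fin q × Fin q)),
      (cnt (2 ^ σ) (fun s => ii.1 ≠ ii.2 ∧ ¬ Dir {ii.2} (v1 + K1 * p + L)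
        (2 ^ (v1 + K1 * p + L - 2 * p)) (2 ^ ((2 * q + 2) * p)) (v1 + K1 * p) L g9
        (Sg s) (Sg s ii.1)) : ℝ) ≤ x := by
    rintro ⟨is, i'⟩ -
    by_cases hne : is = i'
    · have h0 : cnt (2 ^ σ) (fun s => is ≠ i' ∧ ¬ Dir {i'} (v1 + K1 * p + L)
        (2 ^ (v1 + K1 * p + L - 2 * p)) (2 ^ ((2 * q + 2) * p)) (v1 + K1 * p) L g9
        (Sg s) (Sg s is)) = 0 := by
        classical
        rw [cp_cnt, card_eq_zero, filter_eq_empty_iff]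
        rintro b - ⟨h, -⟩
        exact h hne
      simp only
      rw [h0, Nat.cast_zero]
      exact hx0
    · rw [hx]
      have hΔ := hdel is i' hne
      rw [hr is, hr i'] at hΔ
      have hB5 := G5 (ip is) (ip i') (h is) (h i') (t is) (t i') (hh is) (hh i') (ht is)
        (ht i') hΔ
      rw [← hr is, ← hr i'] at hB5
      have hh5 := H5 p (by omega) (v1 + K1 * p) σ R hσ hσ3 (by omega) n G3
        (fun i => d (ip i)) (fun i => e (ip i)) (fun i => f (ip i)) r hd' hrR is i' hne hB5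
      rw [hSg]
      refine cp_div hβ0 (le_trans (mul_le_mul_of_nonneg_right ?_ (by positivity)) hh5) hD5
      exact (Nat.cast_le (α := ℝ)).2 (cp_mono (B := 2 ^ σ) (fun b hb => hb.2))
  -- the unions
  have u4 := cp_exists (univ : Finset (Fin q)) (fun is b => ∃ j ∈ range K1,
    ¬ Dir univ (v1 + (j + 1) * p) (2 ^ (v1 + (j + 1) * p - 2 * p))
        (2 ^ ((2 * q + 2) * p)) (v1 + K1 * p) L g9 (Sg b) (Sg b is)) _
    fun is _ => cp_exists (range K1) (fun j b =>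
      ¬ Dir univ (v1 + (j + 1) * p) (2 ^ (v1 + (j + 1) * p - 2 * p))
        (2 ^ ((2 * q + 2) * p)) (v1 + K1 * p) L g9 (Sg b) (Sg b is)) x (e4 is)
  have u5 := cp_exists (univ : Finset (Fin q)) (fun is b => ∃ j ∈ range K2,
    ¬ Dir univ (v1 + K1 * p + L + (2 * q + 4) * p + (j + 1) * p)
        (2 ^ (v1 + K1 * p + L + (2 * q + 4) * p + (j + 1) * p - 2 * p))
        (2 ^ ((2 * q + 2) * p)) (v1 + K1 * p) L g9 (Sg b) (Sg b is)) _
    fun is _ => cp_exists (range K2) (fun j b =>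
      ¬ Dir univ (v1 + K1 * p + L + (2 * q + 4) * p + (j + 1) * p)
        (2 ^ (v1 + K1 * p + L + (2 * q + 4) * p + (j + 1) * p - 2 * p))
        (2 ^ ((2 * q + 2) * p)) (v1 + K1 * p) L g9 (Sg b) (Sg b is)) x (e5 is)
  have u7 := cp_exists (univ : Finset (Fin q × Fin q)) (fun ii b =>
    ii.1 ≠ ii.2 ∧ ¬ Dir {ii.2} (v1 + K1 * p + L)
        (2 ^ (v1 + K1 * p + L - 2 * p)) (2 ^ ((2 * q + 2) * p)) (v1 + K1 * p) L g9
        (Sg b) (Sg b ii.1)) x e7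
  have u8 := gu_exS (B := 2 ^ σ) (univ : Finset (Fin q)) (fun i s =>
    ¬ Pt q p L g g9 v1 K1 K2 M τ c (d (ip i)) (e (ip i)) (f (ip i)) (n + s + r i))
  have U := cp_or _ _ _ _ (cp_or _ _ _ _ u4 (cp_or _ _ _ _ u5 u7)) u8
  refine le_trans ((Nat.cast_le (α := ℝ)).2 (cp_mono (B := 2 ^ σ) (fun b hb => ?_)))
    (U.trans (add_le_add ?_ le_rfl))
  · by_contra hcon
    push Not at hcon
    obtain ⟨⟨f4, f5, f7⟩, f8⟩ := hcon
    apply hb
    have fP : ∀ i, Pt q p L g g9 v1 K1 K2 M τ c (d (ip i)) (e (ip i)) (f (ip i))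
        (n + b + r i) := fun i => f8 i (mem_univ _)
    rw [hSg] at f4 f5 f7
    refine ⟨fun i j hj => (fP i).1 j hj, fun i => (fP i).2.1, fun i j hj => (fP i).2.2.1 j hj,
      fun is j hj => f4 is (mem_univ _) j (mem_range.2 hj),
      fun is j hj => f5 is (mem_univ _) j (mem_range.2 hj), fun is => ?_,
      fun is i' hne => f7 (is, i') (mem_univ _) hne, (fP i0).2.2.2.2⟩
    obtain ⟨t', ht1, -, ht3⟩ := (fP is).2.2.2.1
    exact ⟨t', ht1, fun i hi => absurd hi (notMem_empty i), ht3⟩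
  simp only [card_univ, Fintype.card_fin, Fintype.card_prod, card_range]
  have hK1r : (K1 : ℝ) ≤ Kn := by exact_mod_cast hK1
  have hK2r : (K2 : ℝ) ≤ Kn := by exact_mod_cast hK2
  have hq0 : (0 : ℝ) ≤ q := Nat.cast_nonneg _
  have hfin : NN * x ≤ ε * 2 ^ σ := by
    rw [hx]
    have h7 : (2 : ℝ) ^ p7 ≤ 2 ^ p := pow_le_pow_right₀ (by norm_num) (by omega)
    have h8 : NN * DD ≤ 2 ^ p * ε := by
      rw [div_le_iff₀ hε] at hp7
      exact hp7.trans (mul_le_mul_of_nonneg_right h7 hε.le)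
    rw [mul_div_assoc', div_le_iff₀ (by positivity)]
    calc NN * (DD * 2 ^ σ) = (NN * DD) * 2 ^ σ := by ring
      _ ≤ (2 ^ p * ε) * 2 ^ σ := mul_le_mul_of_nonneg_right h8 hβ0
      _ = ε * 2 ^ σ * 2 ^ p := by ring
  refine le_trans ?_ hfin
  rw [hNN]
  push_cast
  have k1 : (q : ℝ) * (K1 * x) ≤ q * (Kn * x) :=
    mul_le_mul_of_nonneg_left (mul_le_mul_of_nonneg_right hK1r hx0) hq0
  have k2 : (q : ℝ) * (K2 * x) ≤ q * (Kn * x) :=
    mul_le_mul_of_nonneg_left (mul_le_mul_of_nonneg_right hK2r hx0) hq0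
  nlinarith

end Pool.Agent.H34.T4
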