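import Pool.Agent.H20.T4.Stm
import Pool.Agent.H9.TC.NCom
import Pool.Agent.H41.T4.G3

/-!
Project TM4 (MP_b6022c_nt), row N4: direction of the lowest window.
-/

namespace Pool.Agent.H34.T4

open Finset Pool.Agent.H9.TC Pool.Agent.H20.TM Pool.Agent.H20.T4

/-- the cubic sum of one parameter -/
theorem n4_exp (hW3 : H20.T4.W3Stmt) (c : ℕ) (hc : 1 ≤ c) (p Y v1 E a : ℕ) (hp : 1 ≤ p) (t K : ℤ)
    (htK : t * K ≠ 0) (hY : |t * K| ≤ 2 ^ Y) (hE : 10 * p + Y + c + 6 + v1 ≤ E)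
    (ha : 2 * E ≤ a) (t3 t2 t1 t0 : ℝ)
    (h3 : t3 = ((4 * c * (t * K) : ℤ) : ℝ) * 2 ^ v1 / 2 ^ E) :
    ‖∑ b ∈ range (2 ^ a), ee (t3 * (b : ℝ) ^ 3 + t2 * (b : ℝ) ^ 2 + t1 * b + t0)‖ ≤
      3 * (1 / 2) ^ p * 2 ^ a := by
  obtain ⟨N, hN⟩ : ∃ N : ℕ, N = 2 ^ a := ⟨_, rfl⟩
  have hN1 : 1 ≤ N := by rw [hN]; exact Nat.one_le_two_pow
  have hNr : (N : ℝ) = 2 ^ a := by rw [hN]; push_cast; ring
  have hN0 : (0 : ℝ) < N := by rw [hNr]; positivity
  have hH := hW3 t3 t2 t1 t0 N (2 ^ (5 * p)) 1 (1 / 2 ^ E) hN1 Nat.one_le_two_pow le_rfl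
    (by positivity) (by
      intro k1 k2 hk1 hk1' hk2 hk2'
      have e1 : (6 : ℝ) * k1 * k2 * t3 =
          ((24 * c * k1 * k2 * (t * K) * 2 ^ v1 : ℤ) : ℝ) / 2 ^ E := by
        rw [h3]; push_cast; ring
      rw [e1]
      have hz : (24 * c * k1 * k2 * (t * K) * 2 ^ v1 : ℤ) ≠ 0 := by
        have i1 : (c : ℤ) ≠ 0 := by omega
        have i2 : (k1 : ℤ) ≠ 0 := by omega
        have i3 : (k2 : ℤ) ≠ 0 := by omega
        exact mul_ne_zero (mul_ne_zero (mul_ne_zero (mul_ne_zero (mul_ne_zero (by norm_num) i1)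
          i2) i3) htK) (by positivity)
      have hz1 : (1 : ℝ) ≤ |((24 * c * k1 * k2 * (t * K) * 2 ^ v1 : ℤ) : ℝ)| := by
        have := Int.one_le_abs hz
        exact_mod_cast this
      have hup : |(24 * c * k1 * k2 * (t * K) * 2 ^ v1 : ℤ)| * 2 ≤ 2 ^ E := by
        have a1 : |(24 * c * k1 * k2 * (t * K) * 2 ^ v1 : ℤ)| =
            24 * c * k1 * k2 * |t * K| * 2 ^ v1 := by
          rw [abs_mul, abs_mul, abs_of_nonneg (by positivity : (0 : ℤ) ≤ 24 * c * k1 * k2),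
            abs_of_nonneg (by positivity : (0 : ℤ) ≤ 2 ^ v1)]
        have a2 : (k1 : ℤ) ≤ 2 ^ (5 * p) := by exact_mod_cast hk1'.le
        have a3 : (k2 : ℤ) ≤ 2 ^ (5 * p) := by exact_mod_cast hk2'.le
        have a4 : (c : ℤ) ≤ 2 ^ c := by
          have : c < 2 ^ c := Nat.lt_two_pow_self
          exact_mod_cast this.le
        have a5 : (24 * c * k1 * k2 * |t * K| * 2 ^ v1 : ℤ) ≤
            32 * 2 ^ c * 2 ^ (5 * p) * 2 ^ (5 * p) * 2 ^ Y * 2 ^ v1 := by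
          gcongr
          norm_num
        have a6 : (32 * 2 ^ c * 2 ^ (5 * p) * 2 ^ (5 * p) * 2 ^ Y * 2 ^ v1 : ℤ) * 2 =
            2 ^ (10 * p + Y + c + 6 + v1) := by
          rw [show (32 : ℤ) = 2 ^ 5 by norm_num]
          have : (2 : ℤ) ^ (10 * p + Y + c + 6 + v1) =
              2 ^ (5 + c + 5 * p + 5 * p + Y + v1 + 1) := by congr 1; ring
          rw [this, pow_add, pow_add, pow_add, pow_add, pow_add, pow_add, pow_one]
        have a7 : (2 : ℤ) ^ (10 * p + Y + c + 6 + v1) ≤ 2 ^ E :=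
          pow_le_pow_right₀ (by norm_num) hE
        rw [a1]
        linarith
      have hupr : |((24 * c * k1 * k2 * (t * K) * 2 ^ v1 : ℤ) : ℝ)| * 2 ≤ 2 ^ E := by
        exact_mod_cast hup
      have h2 : |((24 * c * k1 * k2 * (t * K) * 2 ^ v1 : ℤ) : ℝ) / 2 ^ E| ≤ 1 / 2 := by
        rw [abs_div, abs_of_pos (by positivity : (0 : ℝ) < 2 ^ E), div_le_iff₀ (by positivity)]
        linarith
      refine le_trans ?_ (g3_nn h2)
      rw [abs_div, abs_of_pos (by positivity : (0 : ℝ) < 2 ^ E)]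
      exact div_le_div_of_nonneg_right hz1 (by positivity)) N le_rfl
  have p1 : 1 / (1 / (2 : ℝ) ^ E * N) ≤ 1 / 2 ^ (5 * p) := by
    rw [hNr, div_le_div_iff₀ (by positivity) (by positivity)]
    have : (2 : ℝ) ^ (E + 5 * p) ≤ 2 ^ a := pow_le_pow_right₀ (by norm_num) (by omega)
    rw [pow_add] at this
    field_simp
    linarith
  have p2 : (6 : ℝ) * (1 : ℕ) / ((2 ^ (5 * p) : ℕ) : ℝ) = 6 * (1 / 2 ^ (5 * p)) := by
    push_cast
    ring
  have p3 : ((2 ^ (5 * p) : ℕ) : ℝ) / N ≤ 1 / 2 ^ (5 * p) := by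
    rw [hNr, div_le_div_iff₀ (by positivity) (by positivity)]
    push_cast
    rw [one_mul, ← pow_add]
    exact pow_le_pow_right₀ (by norm_num) (by omega)
  have p4 : 1 / (2 : ℝ) ^ (5 * p) ≤ ((1 / 2) ^ p) ^ 4 := by
    rw [← pow_mul, one_div_pow]
    exact one_div_le_one_div_of_le (by positivity) (pow_le_pow_right₀ (by norm_num) (by omega))
  have p5 : ‖∑ b ∈ range N, ee (t3 * (b : ℝ) ^ 3 + t2 * (b : ℝ) ^ 2 + t1 * b + t0)‖ ^ 4 ≤
      (3 * (1 / 2) ^ p * N) ^ 4 := by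
    refine hH.trans ?_
    rw [p2]
    have : (N : ℝ) ^ 4 * (10 * (1 / (1 / (2 : ℝ) ^ E * N) + 6 * (1 / 2 ^ (5 * p)) +
        ((2 ^ (5 * p) : ℕ) : ℝ) / N)) ≤ (N : ℝ) ^ 4 * (81 * ((1 / 2) ^ p) ^ 4) := by
      apply mul_le_mul_of_nonneg_left _ (by positivity)
      have hA : (0 : ℝ) ≤ ((1 / 2) ^ p) ^ 4 := by positivity
      linarith
    refine this.trans (le_of_eq ?_)
    ring
  have p6 := (pow_le_pow_iff_left₀ (norm_nonneg _) (by positivity) (by norm_num)).1 p5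
  rw [hNr] at p6
  rw [← hN]
  exact p6

/-- (N4) -/
theorem n4 (h0 : M0Stmt) (hg : GStmt) (hW3 : H20.T4.W3Stmt) : H20.T4.N4Stmt := by
  intro q c L g9 hq1 hc hL
  refine ⟨(4 * 4 ^ (L + g9) + 1) * (4 * 2 ^ (L + g9)) * (1 + 3 + q),
    c + L + 3 * g9 + 2 * (L + g9) + 20, ?_⟩
  intro p hp v1 uf a huf ha d e f
  have hp1 : 1 ≤ p := by omega
  have e1 : (12 * q + 12) * p = 12 * (q * p) + 12 * p := by ring
  have e3 : (2 * q + 2) * p = 2 * (q * p) + 2 * p := by ring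
  have hqp : p ≤ q * p := Nat.le_mul_of_pos_left p (by omega)
  have H := ncom h0 hg q 0 (Nat.zero_le _) hq1 (∅ : Finset (Fin q)) 1 1 L g9 3 (by norm_num) p uf
    a le_rfl le_rfl (by norm_num) (by omega) hL
    (by rw [Finset.card_empty, pow_zero, mul_zero, zero_mul, pow_zero])
    (by
      rw [Finset.card_empty]
      simp only [Nat.cast_zero, zero_mul, zero_div]
      positivity)
    (fun _ _ => 0) (fun n => (2 : ℤ) ^ v1 * dqua c d e f n)
    (by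
      intro K hK hKL t ht htT a' ha'
      have hK0 : K ≠ 0 := by
        rintro rfl
        exact hKL (dvd_zero _)
      have hKY : |t * K| ≤ 2 ^ ((2 * q + 2) * p + (1 + 2 * (L + g9))) := by
        rw [abs_mul, pow_add]
        have h4 : (2 : ℤ) * 4 ^ (L + g9) = 2 ^ (1 + 2 * (L + g9)) := by
          rw [pow_add 2 1, pow_mul 2 2 (L + g9)]
          norm_num
        rw [← h4]
        exact mul_le_mul htT.le hK (abs_nonneg _) (by positivity)
      have hb := n4_exp hW3 c hc p ((2 * q + 2) * p + (1 + 2 * (L + g9))) v1 (uf + L) a hp1 t K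
        (mul_ne_zero ht hK0) hKY (by omega) ha _
        ((t : ℝ) * K * 2 ^ v1 * (3 * d) / 2 ^ (uf + L))
        ((t : ℝ) * K * 2 ^ v1 * (2 * e) / 2 ^ (uf + L))
        ((t : ℝ) * K * 2 ^ v1 * f / 2 ^ (uf + L)) rfl
      rw [mul_zero, zero_add, one_mul]
      refine le_trans (le_of_eq ?_) hb
      congr 1
      refine sum_congr rfl fun b _ => ?_
      congr 1
      simp only [Finset.sum_empty, zero_div, zero_add]
      unfold dqua
      push_cast
      ring)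
  refine le_trans (le_of_eq ?_) H
  rfl

end Pool.Agent.H34.T4
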